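import Pool.Agent.Helper9.SK.St
import Mathlib

/-!
# Project SK, module RHO: local densities
-/

set_option autoImplicit false

noncomputable section

namespace Pool.Agent.Helper92.SK

open Finset
open Pool.Agent.Helper9.SK

private theorem ff_modEq {d a a' : ℕ} (h : a ≡ a' [MOD d]) : ff a ≡ ff a' [MOD d] := by
  unfold ff
  exact ((h.pow 2).add h).add_right 1

/-- the three conditions -/
private def good (v d a b : ℕ) : Prop :=
  Nat.Coprime a d ∧ Nat.Coprime b d ∧ d ∣ v + ff a * ff b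

private theorem coprime_congr {d a a' : ℕ} (h : a ≡ a' [MOD d]) :
    Nat.Coprime a d ↔ Nat.Coprime a' d := by
  unfold Nat.Coprime
  rw [h.gcd_eq]

private theorem good_congr {v d a a' b b' : ℕ} (ha : a ≡ a' [MOD d]) (hb : b ≡ b' [MOD d]) :
    good v d a b ↔ good v d a' b' := by
  unfold good
  rw [coprime_congr ha, coprime_congr hb]
  have h : v + ff a * ff b ≡ v + ff a' * ff b' [MOD d] :=
    ((ff_modEq ha).mul (ff_modEq hb)).add_left v
  rw [h.dvd_iff (dvd_refl d)]

private theorem good_mul {v d e a b : ℕ} (h : Nat.Coprime d e) :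
    good v (d * e) a b ↔ good v d a b ∧ good v e a b := by
  unfold good
  rw [Nat.coprime_mul_iff_right, Nat.coprime_mul_iff_right]
  have h1 : d * e ∣ v + ff a * ff b ↔ d ∣ v + ff a * ff b ∧ e ∣ v + ff a * ff b :=
    ⟨fun h2 => ⟨(Dvd.intro _ rfl).trans h2, (Dvd.intro_left _ rfl).trans h2⟩,
      fun h2 => h.mul_dvd_of_dvd_of_dvd h2.1 h2.2⟩
  rw [h1]
  tauto

private theorem rho_mul (v d e : ℕ) (hd : 1 ≤ d) (he : 1 ≤ e) (h : Nat.Coprime d e) :
    rho v (d * e) = rho v d * rho v e := by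
  unfold rho
  rw [← Finset.card_product]
  have hd0 : d ≠ 0 := by omega
  have he0 : e ≠ 0 := by omega
  refine Finset.card_bij' (fun w _ => ((w.1 % d, w.2 % d), (w.1 % e, w.2 % e)))
    (fun u _ => ((Nat.chineseRemainder h u.1.1 u.2.1 : ℕ),
      (Nat.chineseRemainder h u.1.2 u.2.2 : ℕ))) ?_ ?_ ?_ ?_
  · intro w hw
    rw [Finset.mem_filter, Finset.mem_product, Finset.mem_range, Finset.mem_range] at hw
    obtain ⟨⟨_, _⟩, h3⟩ := hw
    have h4 := (good_mul (v := v) (a := w.1) (b := w.2) h).1 h3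
    rw [Finset.mem_product]
    constructor
    · rw [Finset.mem_filter, Finset.mem_product, Finset.mem_range, Finset.mem_range]
      exact ⟨⟨Nat.mod_lt _ hd, Nat.mod_lt _ hd⟩,
        (good_congr (Nat.mod_modEq _ _) (Nat.mod_modEq _ _)).2 h4.1⟩
    · rw [Finset.mem_filter, Finset.mem_product, Finset.mem_range, Finset.mem_range]
      exact ⟨⟨Nat.mod_lt _ he, Nat.mod_lt _ he⟩,
        (good_congr (Nat.mod_modEq _ _) (Nat.mod_modEq _ _)).2 h4.2⟩
  · intro u hu
    rw [Finset.mem_product] at hu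
    obtain ⟨h1, h2⟩ := hu
    rw [Finset.mem_filter] at h1 h2
    rw [Finset.mem_filter, Finset.mem_product, Finset.mem_range, Finset.mem_range]
    have e1 := (Nat.chineseRemainder h u.1.1 u.2.1).2
    have e2 := (Nat.chineseRemainder h u.1.2 u.2.2).2
    refine ⟨⟨Nat.chineseRemainder_lt_mul h _ _ hd0 he0, Nat.chineseRemainder_lt_mul h _ _ hd0 he0⟩,
      (good_mul (v := v) h).2 ⟨?_, ?_⟩⟩
    · exact (good_congr e1.1 e2.1).2 h1.2
    · exact (good_congr e1.2 e2.2).2 h2.2
  · intro w hw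
    rw [Finset.mem_filter, Finset.mem_product, Finset.mem_range, Finset.mem_range] at hw
    obtain ⟨⟨h1, h2⟩, _⟩ := hw
    have key : ∀ a : ℕ, a < d * e → (Nat.chineseRemainder h (a % d) (a % e) : ℕ) = a := by
      intro a ha
      have e1 := (Nat.chineseRemainder h (a % d) (a % e)).2
      have e2 := Nat.chineseRemainder_lt_mul h (a % d) (a % e) hd0 he0
      have e3 : (Nat.chineseRemainder h (a % d) (a % e) : ℕ) ≡ a [MOD d * e] :=
        (Nat.modEq_and_modEq_iff_modEq_mul h).1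
          ⟨e1.1.trans (Nat.mod_modEq _ _), e1.2.trans (Nat.mod_modEq _ _)⟩
      exact e3.eq_of_lt_of_lt e2 ha
    exact Prod.ext (key _ h1) (key _ h2)
  · intro u hu
    rw [Finset.mem_product] at hu
    obtain ⟨h1, h2⟩ := hu
    rw [Finset.mem_filter, Finset.mem_product, Finset.mem_range, Finset.mem_range] at h1 h2
    obtain ⟨⟨h3, h4⟩, _⟩ := h1
    obtain ⟨⟨h5, h6⟩, _⟩ := h2
    have e1 := (Nat.chineseRemainder h u.1.1 u.2.1).2
    have e2 := (Nat.chineseRemainder h u.1.2 u.2.2).2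
    refine Prod.ext (Prod.ext ?_ ?_) (Prod.ext ?_ ?_)
    · exact (Nat.ModEq.eq_of_lt_of_lt ((Nat.mod_modEq _ _).trans e1.1) (Nat.mod_lt _ hd) h3)
    · exact (Nat.ModEq.eq_of_lt_of_lt ((Nat.mod_modEq _ _).trans e2.1) (Nat.mod_lt _ hd) h4)
    · exact (Nat.ModEq.eq_of_lt_of_lt ((Nat.mod_modEq _ _).trans e1.2) (Nat.mod_lt _ he) h5)
    · exact (Nat.ModEq.eq_of_lt_of_lt ((Nat.mod_modEq _ _).trans e2.2) (Nat.mod_lt _ he) h6)

private theorem rho_mod (v d : ℕ) : rho v d = rho (v % d) d := by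
  unfold rho
  congr 1
  refine Finset.filter_congr fun w _ => ?_
  have h : v + ff w.1 * ff w.2 ≡ v % d + ff w.1 * ff w.2 [MOD d] :=
    (Nat.mod_modEq v d).symm.add_right _
  rw [h.dvd_iff (dvd_refl d)]

/-- at most two roots -/
private theorem quad {p : ℕ} (hp : p.Prime) (m c : ℕ) (hc : ¬ p ∣ c) :
    ((range p).filter (fun b => Nat.Coprime b p ∧ p ∣ m + c * ff b)).card ≤ 2 := by
  by_contra hcon
  rw [not_le, Finset.two_lt_card] at hcon
  obtain ⟨x, hx, y, hy, z, hz, hxy, hxz, hyz⟩ := hcon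
  rw [Finset.mem_filter, Finset.mem_range] at hx hy hz
  have : Fact p.Prime := ⟨hp⟩
  have hcast : ∀ b : ℕ, p ∣ m + c * ff b → (m : ZMod p) + c * ((b : ZMod p) ^ 2 + b + 1) = 0 := by
    intro b hb
    have h := (ZMod.natCast_eq_zero_iff (m + c * ff b) p).2 hb
    unfold ff at h
    push_cast at h
    exact h
  have hc0 : (c : ZMod p) ≠ 0 := fun h => hc ((ZMod.natCast_eq_zero_iff c p).1 h)
  have hne : ∀ a b : ℕ, a < p → b < p → a ≠ b → (a : ZMod p) ≠ b := by
    intro a b ha hb hab h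
    exact hab (((ZMod.natCast_eq_natCast_iff a b p).1 h).eq_of_lt_of_lt ha hb)
  have key : ∀ a b : ℕ, a < p → b < p → a ≠ b → p ∣ m + c * ff a → p ∣ m + c * ff b →
      (a : ZMod p) + b + 1 = 0 := by
    intro a b ha hb hab h1 h2
    have e1 := hcast a h1
    have e2 := hcast b h2
    have e3 : (c : ZMod p) * (((a : ZMod p) - b) * ((a : ZMod p) + b + 1)) = 0 := by
      linear_combination e1 - e2
    rcases mul_eq_zero.1 e3 with h | h
    · exact absurd h hc0
    · rcases mul_eq_zero.1 h with h | h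
      · exact absurd (sub_eq_zero.1 h) (hne a b ha hb hab)
      · exact h
  have k1 := key x y hx.1 hy.1 hxy hx.2.2 hy.2.2
  have k2 := key x z hx.1 hz.1 hxz hx.2.2 hz.2.2
  exact hne y z hy.1 hz.1 hyz (by linear_combination k1 - k2)

/-- the reduced residues -/
private theorem card_red {p : ℕ} (hp : p.Prime) :
    ((range p).filter (fun a => Nat.Coprime a p)).card = p - 1 := by
  rw [← Nat.totient_prime hp, Nat.totient_eq_card_coprime]
  congr 1
  refine Finset.filter_congr fun a _ => ?_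
  rw [Nat.coprime_comm]

private theorem rho_fib (v p : ℕ) : rho v p = ∑ a ∈ (range p).filter (fun a => Nat.Coprime a p),
    ((range p).filter (fun b => Nat.Coprime b p ∧ p ∣ v + ff a * ff b)).card := by
  unfold rho
  rw [← Finset.card_sigma]
  refine Finset.card_bij' (fun w _ => ⟨w.1, w.2⟩) (fun u _ => (u.1, u.2)) ?_ ?_ ?_ ?_
  · intro w hw
    rw [Finset.mem_filter, Finset.mem_product] at hw
    rw [Finset.mem_sigma, Finset.mem_filter, Finset.mem_filter]
    exact ⟨⟨hw.1.1, hw.2.1⟩, hw.1.2, hw.2.2.1, hw.2.2.2⟩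
  · intro u hu
    rw [Finset.mem_sigma, Finset.mem_filter, Finset.mem_filter] at hu
    rw [Finset.mem_filter, Finset.mem_product]
    exact ⟨⟨hu.1.1, hu.2.1⟩, hu.1.2, hu.2.2.1, hu.2.2.2⟩
  · intro w _
    rfl
  · intro u _
    rfl

private theorem rho_prime (v p : ℕ) (hp : p.Prime) (h5 : 5 ≤ p) :
    (rho v p : ℝ) ≤ ((p : ℝ) - 1) ^ 2 - ((p : ℝ) - 3) ^ 2 := by
  have h5' : (5 : ℝ) ≤ p := by exact_mod_cast h5
  by_cases hv : p ∣ v
  · -- complement
    set S := (range p).filter (fun a => Nat.Coprime a p) with hS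
    set R := (range p).filter (fun b => Nat.Coprime b p ∧ p ∣ 0 + 1 * ff b) with hR
    have hRS : R ⊆ S := by
      intro b hb
      rw [hR, Finset.mem_filter] at hb
      rw [hS, Finset.mem_filter]
      exact ⟨hb.1, hb.2.1⟩
    have hR2 : R.card ≤ 2 := quad hp 0 1 (by
      intro h
      exact hp.one_lt.ne' (Nat.dvd_one.1 h))
    have hSc : S.card = p - 1 := card_red hp
    have hmem : ∀ b, b ∈ S \ R ↔ b < p ∧ Nat.Coprime b p ∧ ¬ p ∣ ff b := by
      intro b
      rw [Finset.mem_sdiff, hS, hR, Finset.mem_filter, Finset.mem_filter, Finset.mem_range,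
        zero_add, one_mul]
      tauto
    have hU : (range p ×ˢ range p).filter
        (fun w => Nat.Coprime w.1 p ∧ Nat.Coprime w.2 p ∧ p ∣ v + ff w.1 * ff w.2) =
        (S ×ˢ S) \ ((S \ R) ×ˢ (S \ R)) := by
      ext w
      rw [Finset.mem_filter, Finset.mem_product, Finset.mem_sdiff, Finset.mem_product,
        Finset.mem_product, hmem, hmem, hS, Finset.mem_filter, Finset.mem_filter,
        Finset.mem_range, Finset.mem_range, (Nat.dvd_add_right hv), hp.dvd_mul]
      tauto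
    have hsub : (S \ R) ×ˢ (S \ R) ⊆ S ×ˢ S :=
      Finset.product_subset_product Finset.sdiff_subset Finset.sdiff_subset
    have hcard : rho v p + (S \ R).card ^ 2 = S.card ^ 2 := by
      unfold rho
      rw [hU, pow_two, pow_two, ← Finset.card_product, ← Finset.card_product]
      exact Finset.card_sdiff_add_card_eq_card hsub
    have h1 : (S \ R).card + R.card = S.card := Finset.card_sdiff_add_card_eq_card hRS
    have h2 : ((S \ R).card : ℝ) + R.card = p - 1 := by
      have h3 : ((S \ R).card : ℝ) + R.card = S.card := by exact_mod_cast h1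
      rw [h3, hSc, Nat.cast_sub hp.one_lt.le, Nat.cast_one]
    have h3 : (rho v p : ℝ) + ((S \ R).card : ℝ) ^ 2 = ((p : ℝ) - 1) ^ 2 := by
      have h4 : (rho v p : ℝ) + ((S \ R).card : ℝ) ^ 2 = (S.card : ℝ) ^ 2 := by
        exact_mod_cast hcard
      rw [h4, hSc, Nat.cast_sub hp.one_lt.le, Nat.cast_one]
    have h4 : (R.card : ℝ) ≤ 2 := by exact_mod_cast hR2
    have h5 : (p : ℝ) - 3 ≤ (S \ R).card := by linarith
    have h6 : ((p : ℝ) - 3) ^ 2 ≤ ((S \ R).card : ℝ) ^ 2 :=
      pow_le_pow_left₀ (by linarith) h5 2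
    linarith
  · have h1 : rho v p ≤ (p - 1) * 2 := by
      rw [rho_fib, ← card_red hp, ← smul_eq_mul]
      refine Finset.sum_le_card_nsmul _ _ _ fun a _ => ?_
      by_cases ha : p ∣ ff a
      · have h2 : (range p).filter (fun b => Nat.Coprime b p ∧ p ∣ v + ff a * ff b) = ∅ := by
          refine Finset.filter_eq_empty_iff.2 fun b _ hb => ?_
          exact hv ((Nat.dvd_add_left (ha.mul_right _)).1 hb.2)
        rw [h2, Finset.card_empty]
        exact Nat.zero_le _
      · exact quad hp v (ff a) ha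
    have h2 : (rho v p : ℝ) ≤ ((p : ℝ) - 1) * 2 := by
      have h3 : (rho v p : ℝ) ≤ ((p - 1 : ℕ) : ℝ) * 2 := by exact_mod_cast h1
      rwa [Nat.cast_sub hp.one_lt.le, Nat.cast_one] at h3
    nlinarith

theorem hRHO : StRho := by
  refine ⟨rho_mul, ?_, ?_, ?_, rho_prime⟩
  · intro v
    rw [rho_mod, Nat.mod_one]
    rfl
  · intro v hv
    rw [rho_mod, Nat.even_iff.1 hv]
    rfl
  · intro v
    rw [rho_mod]
    have h := Nat.mod_lt v (show 3 > 0 by norm_num)
    interval_cases (v % 3)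
    · show rho 0 3 ≤ 3
      decide
    · show rho 1 3 ≤ 3
      decide
    · show rho 2 3 ≤ 3
      decide

end Pool.Agent.Helper92.SK
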